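import Mathlib

/-!
Cocycles with linear coefficients on the subgroups of a group with a local condition: restriction,
conjugation, corestriction, and the ranks of the modules of classes.
-/

set_option linter.unusedSectionVars false
set_option linter.style.haveILetI false

namespace Pool.Agent.U10.Shr

variable {R : Type*} [CommRing R] {G M : Type*} [Group G] [TopologicalSpace G] [AddCommGroup M]
  [Module R M]

/-- A cocycle which vanishes on a subgroup of finite index is, up to the index, a coboundary. -/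
theorem killed {D A : Type*} [Group D] [AddCommGroup A] [Module R A] (a : D →* Module.End R A)
    (C : Subgroup D) [C.FiniteIndex] (f : D → A) (hf : ∀ d e, f (d * e) = f d + a d (f e))
    (h0 : ∀ c ∈ C, f c = 0) : ∃ S : A, ∀ d, C.index • f d = S - a d S := by
  classical
  have h1 : ∀ d, ∀ c ∈ C, f (d * c) = f d := by
    intro d c hc
    rw [hf, h0 c hc, map_zero, add_zero]
  haveI : Fintype (D ⧸ C) := Fintype.ofFinite _
  let F : D ⧸ C → A := Quotient.lift f (by
    intro x y hxy
    have h2 : x⁻¹ * y ∈ C := QuotientGroup.leftRel_apply.1 hxy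
    have h3 := h1 x _ h2
    rw [mul_inv_cancel_left] at h3
    exact h3.symm)
  have hF : ∀ d : D, F (d : D ⧸ C) = f d := fun d => rfl
  refine ⟨∑ q : D ⧸ C, F q, fun d => ?_⟩
  have h2 : ∑ q : D ⧸ C, F q = ∑ q : D ⧸ C, F (d • q) :=
    (Equiv.sum_comp (MulAction.toPerm d : Equiv.Perm (D ⧸ C)) F).symm
  have h3 : ∀ q : D ⧸ C, F (d • q) = f d + a d (F q) := by
    intro q
    induction q using QuotientGroup.induction_on with
    | H z =>
      rw [hF]
      change F ((d * z : D) : D ⧸ C) = _
      rw [hF, hf]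
  have h4 : ∑ q : D ⧸ C, F (d • q) = C.index • f d + a d (∑ q : D ⧸ C, F q) := by
    rw [Finset.sum_congr rfl (fun q _ => h3 q), Finset.sum_add_distrib, Finset.sum_const,
      Finset.card_univ, map_sum, Subgroup.index, Nat.card_eq_fintype_card]
  rw [eq_sub_iff_add_eq, ← h4, ← h2]

variable (a : G →* Module.End R M)

/-- Cocycles on a subgroup. -/
def IsCoc (H : Subgroup G) (f : H → M) : Prop := ∀ σ τ : H, f (σ * τ) = f σ + a σ (f τ)

/-- The restriction to a smaller subgroup. -/
def rs {N H : Subgroup G} (h : N ≤ H) (f : H → M) : N → M := fun n => f (Subgroup.inclusion h n)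

/-- The conjugate of a function on a normal subgroup. -/
def cj (N : Subgroup G) [hN : N.Normal] (g : G) (f : N → M) : N → M :=
  fun n => a g (f ⟨g⁻¹ * n * g, by simpa using hN.conj_mem n n.2 g⁻¹⟩)

/-- The local conditions. -/
structure LocData where
  /-- the functions satisfying the conditions -/
  P : (H : Subgroup G) → Submodule R (H → M)
  res : ∀ {N H : Subgroup G} (h : N ≤ H) (f : H → M), f ∈ P H → rs h f ∈ P N
  conj : ∀ (N : Subgroup G) [N.Normal] (g : G) (f : N → M), f ∈ P N → cj a N g f ∈ P N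
  idx : ∀ {N H : Subgroup G} (h : N ≤ H) [N.Normal] [N.FiniteIndex] (f : H → M),
    IsOpen (N : Set G) → IsCoc a H f → rs h f ∈ P N → (N.subgroupOf H).index • f ∈ P H

variable {a} (L : LocData a)

/-- The cocycles with the local conditions. -/
def LocData.Z (H : Subgroup G) : Submodule R (H → M) where
  carrier := {f | IsCoc a H f ∧ f ∈ L.P H}
  add_mem' := by
    rintro f g ⟨hf, hf'⟩ ⟨hg, hg'⟩
    refine ⟨fun σ τ => ?_, add_mem hf' hg'⟩
    simp only [Pi.add_apply, hf σ τ, hg σ τ, map_add]
    abel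
  zero_mem' := ⟨fun σ τ => by simp, zero_mem _⟩
  smul_mem' := by
    rintro c f ⟨hf, hf'⟩
    refine ⟨fun σ τ => ?_, Submodule.smul_mem _ c hf'⟩
    simp only [Pi.smul_apply, hf σ τ, map_smul, smul_add]

variable (a) in
/-- The coboundaries. -/
def Bd (H : Subgroup G) : Submodule R (H → M) where
  carrier := {f | ∃ x : M, ∀ σ : H, f σ = a σ x - x}
  add_mem' := by
    rintro f g ⟨x, hx⟩ ⟨y, hy⟩
    refine ⟨x + y, fun σ => ?_⟩
    simp only [Pi.add_apply, hx σ, hy σ, map_add]
    abel
  zero_mem' := ⟨0, fun σ => by simp⟩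
  smul_mem' := by
    rintro c f ⟨x, hx⟩
    refine ⟨c • x, fun σ => ?_⟩
    simp only [Pi.smul_apply, hx σ, map_smul, smul_sub]

/-- The module of the classes of the cocycles with the local conditions. -/
abbrev LocData.Sh (H : Subgroup G) : Type _ := L.Z H ⧸ (Bd a H).comap (L.Z H).subtype

/-- The restriction of classes. -/
def LocData.res' {N H : Subgroup G} (h : N ≤ H) : L.Sh H →ₗ[R] L.Sh N :=
  Submodule.mapQ _ _
    { toFun := fun f => (⟨rs h f.1, fun σ τ => f.2.1 (Subgroup.inclusion h σ)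
        (Subgroup.inclusion h τ), L.res h f.1 f.2.2⟩ : L.Z N)
      map_smul' := fun _ _ => rfl
      map_add' := fun _ _ => rfl }
    (by
      rintro ⟨f, hf⟩ ⟨x, hx⟩
      exact ⟨x, fun σ => hx (Subgroup.inclusion h σ)⟩)

theorem a_mul (a : G →* Module.End R M) (g h : G) (m : M) : a (g * h) m = a g (a h m) := by
  rw [map_mul]
  rfl

theorem a_eq (a : G →* Module.End R M) {g h : G} {g' h' : G} (e : g * h = g' * h') (m : M) :
    a g (a h m) = a g' (a h' m) := by
  rw [← a_mul, ← a_mul, e]

theorem cj_coc (N : Subgroup G) [hN : N.Normal] (g : G) {f : N → M} (hf : IsCoc a N f) :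
    IsCoc a N (cj a N g f) := by
  intro σ τ
  unfold cj
  have h2 : (⟨g⁻¹ * ((σ * τ : N) : G) * g, by
      simpa using hN.conj_mem _ (σ * τ).2 g⁻¹⟩ : N) =
      (⟨g⁻¹ * σ * g, by simpa using hN.conj_mem σ σ.2 g⁻¹⟩ : N) *
      (⟨g⁻¹ * τ * g, by simpa using hN.conj_mem τ τ.2 g⁻¹⟩ : N) := by
    apply Subtype.ext
    simp [mul_assoc]
  rw [h2, hf, map_add]
  congr 1
  exact a_eq a (by simp [mul_assoc]) _

/-- The action of the group on the classes for a normal subgroup. -/
def LocData.cj' (N : Subgroup G) [hN : N.Normal] (g : G) : L.Sh N →ₗ[R] L.Sh N :=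
  Submodule.mapQ _ _
    { toFun := fun f => (⟨cj a N g f.1, cj_coc N g f.2.1, L.conj N g f.1 f.2.2⟩ : L.Z N)
      map_smul' := fun c f => by
        apply Subtype.ext
        funext n
        exact map_smul _ _ _
      map_add' := fun f g => by
        apply Subtype.ext
        funext n
        exact map_add _ _ _ }
    (by
      rintro ⟨f, hf⟩ ⟨x, hx⟩
      have hx' : ∀ σ : N, f σ = a σ x - x := hx
      refine ⟨a g x, fun σ => ?_⟩
      change a g (f _) = _
      rw [hx', map_sub]
      congr 1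
      exact a_eq a (by simp [mul_assoc]) _)

/-! ### corestriction -/

section cor

variable {N H : Subgroup G} (hNH : N ≤ H) [hN : N.Normal]

/-- The representatives of the cosets. -/
noncomputable def rp (q : H ⧸ N.subgroupOf H) : H := q.out

theorem rp_coe (q : H ⧸ N.subgroupOf H) : ((rp q : H) : H ⧸ N.subgroupOf H) = q := q.out_eq

/-- The element `(s q)⁻¹ h s(h⁻¹ q)`. -/
noncomputable def el (h : H) (q : H ⧸ N.subgroupOf H) : N :=
  ⟨((rp q)⁻¹ * h * rp (h⁻¹ • q) : H), by
    have h1 : ((rp (h⁻¹ • q) : H) : H ⧸ N.subgroupOf H) = ((h⁻¹ * rp q : H) : H ⧸ N.subgroupOf H) := by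
      rw [rp_coe]
      change h⁻¹ • q = h⁻¹ • ((rp q : H) : H ⧸ N.subgroupOf H)
      rw [rp_coe]
    have h2 := QuotientGroup.eq.1 h1.symm
    rw [mul_inv_rev, inv_inv] at h2
    exact h2⟩

theorem el_mul (h h' : H) (q : H ⧸ N.subgroupOf H) :
    el (h * h') q = el h q * el h' (h⁻¹ • q) := by
  apply Subtype.ext
  have h1 : (h * h')⁻¹ • q = h'⁻¹ • h⁻¹ • q := by
    rw [mul_inv_rev, mul_smul]
  simp only [el, h1, Subgroup.coe_mul, Subgroup.coe_inv]
  group

variable [Fintype (H ⧸ N.subgroupOf H)]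

variable (a) in
/-- The corestriction of a function. -/
noncomputable def co (f : N → M) : H → M :=
  fun h => ∑ q : H ⧸ N.subgroupOf H, a (rp q : H) (f (el h q))

theorem co_coc {f : N → M} (hf : IsCoc a N f) : IsCoc a H (co a (H := H) f) := by
  intro h h'
  unfold co
  have h1 : ∀ q : H ⧸ N.subgroupOf H, a (rp q : H) (f (el (h * h') q)) =
      a (rp q : H) (f (el h q)) + a (h : G) (a (rp (h⁻¹ • q) : H) (f (el h' (h⁻¹ • q)))) := by
    intro q
    rw [el_mul, hf, map_add]
    congr 1
    apply a_eq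
    simp only [el, Subgroup.coe_mul, Subgroup.coe_inv]
    group
  rw [Finset.sum_congr rfl (fun q _ => h1 q), Finset.sum_add_distrib, map_sum]
  congr 1
  exact Equiv.sum_comp (MulAction.toPerm h⁻¹ : Equiv.Perm (H ⧸ N.subgroupOf H))
    (fun q => a (h : G) (a (rp q : H) (f (el h' q))))

include hNH in
theorem el_incl (n : N) (q : H ⧸ N.subgroupOf H) :
    el (Subgroup.inclusion hNH n) q = ⟨((rp q : H) : G)⁻¹ * n * ((rp q : H) : G), by
      simpa using hN.conj_mem n n.2 ((rp q : H) : G)⁻¹⟩ := by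
  apply Subtype.ext
  have h1 : (Subgroup.inclusion hNH n)⁻¹ • q = q := by
    conv_lhs => rw [← rp_coe q]
    conv_rhs => rw [← rp_coe q]
    change (((Subgroup.inclusion hNH n)⁻¹ * rp q : H) : H ⧸ N.subgroupOf H) = _
    rw [QuotientGroup.eq]
    rw [Subgroup.mem_subgroupOf]
    simpa [mul_assoc] using hN.conj_mem n n.2 ((rp q : H) : G)⁻¹
  simp only [el, h1, Subgroup.coe_mul, Subgroup.coe_inv, Subgroup.coe_inclusion]

theorem rs_co (f : N → M) : rs hNH (co a (H := H) f) =
    ∑ q : H ⧸ N.subgroupOf H, cj a N ((rp q : H) : G) f := by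
  funext n
  unfold rs co cj
  rw [Finset.sum_apply]
  refine Finset.sum_congr rfl (fun q _ => ?_)
  rw [el_incl]

theorem co_bd {f : N → M} (x : M) (hx : ∀ n : N, f n = a n x - x) (h : H) :
    co a (H := H) f h = a h (∑ q : H ⧸ N.subgroupOf H, a (rp q : H) x) -
      ∑ q : H ⧸ N.subgroupOf H, a (rp q : H) x := by
  unfold co
  have h1 : ∀ q : H ⧸ N.subgroupOf H, a (rp q : H) (f (el h q)) =
      a (h : G) (a (rp (h⁻¹ • q) : H) x) - a (rp q : H) x := by
    intro q
    rw [hx, map_sub]
    congr 1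
    apply a_eq
    simp only [el, Subgroup.coe_mul, Subgroup.coe_inv]
    group
  rw [Finset.sum_congr rfl (fun q _ => h1 q), Finset.sum_sub_distrib, map_sum]
  congr 1
  exact Equiv.sum_comp (MulAction.toPerm h⁻¹ : Equiv.Perm (H ⧸ N.subgroupOf H))
    (fun q => a (h : G) (a (rp q : H) x))

theorem co_add (f g : N → M) : co a (H := H) (f + g) = co a (H := H) f + co a (H := H) g := by
  funext h
  simp only [co, Pi.add_apply, map_add, Finset.sum_add_distrib]

theorem co_smul (c : R) (f : N → M) : co a (H := H) (c • f) = c • co a (H := H) f := by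
  funext h
  simp only [co, Pi.smul_apply, map_smul, Finset.smul_sum]

end cor

theorem co_mem {N H : Subgroup G} (h : N ≤ H) [hN : N.Normal] [hf : N.FiniteIndex]
    [Fintype (H ⧸ N.subgroupOf H)] (hop : IsOpen (N : Set G)) {f : N → M} (hf : f ∈ L.Z N) :
    (N.subgroupOf H).index • co a (H := H) f ∈ L.Z H := by
  have h1 : IsCoc a H (co a (H := H) f) := co_coc hf.1
  refine ⟨?_, ?_⟩
  · intro σ τ
    simp only [Pi.smul_apply, h1 σ τ, smul_add, map_nsmul]
  · apply L.idx h _ hop h1
    rw [rs_co h]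
    exact sum_mem (fun q _ => L.conj N _ f hf.2)

/-- The corestriction of classes, multiplied by the index. -/
noncomputable def LocData.co' {N H : Subgroup G} (h : N ≤ H) [hN : N.Normal] [hf : N.FiniteIndex]
    [Fintype (H ⧸ N.subgroupOf H)] (hop : IsOpen (N : Set G)) : L.Sh N →ₗ[R] L.Sh H :=
  Submodule.mapQ _ _
    { toFun := fun f => (⟨(N.subgroupOf H).index • co a (H := H) f.1, co_mem L h hop f.2⟩ : L.Z H)
      map_smul' := fun c f => by
        apply Subtype.ext
        change (N.subgroupOf H).index • co a (H := H) (c • f.1) = _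
        rw [co_smul, smul_comm]
        rfl
      map_add' := fun f g => by
        apply Subtype.ext
        change (N.subgroupOf H).index • co a (H := H) (f.1 + g.1) = _
        rw [co_add, smul_add]
        rfl }
    (by
      rintro ⟨f, hf⟩ ⟨x, hx⟩
      have hx' : ∀ σ : N, f σ = a σ x - x := hx
      refine ⟨(N.subgroupOf H).index • ∑ q : H ⧸ N.subgroupOf H, a (rp q : H) x, fun σ => ?_⟩
      change (N.subgroupOf H).index • co a (H := H) f σ = _
      rw [co_bd x hx', smul_sub, map_nsmul])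

theorem res_co {N H : Subgroup G} (h : N ≤ H) [hN : N.Normal] [hf : N.FiniteIndex]
    [Fintype (H ⧸ N.subgroupOf H)] (hop : IsOpen (N : Set G)) (x : L.Sh N) :
    L.res' h (L.co' h hop x) = (N.subgroupOf H).index • ∑ q : H ⧸ N.subgroupOf H,
      L.cj' N ((rp q : H) : G) x := by
  induction x using Submodule.Quotient.induction_on with
  | H f =>
    have h1 : ∀ q : H ⧸ N.subgroupOf H, L.cj' N ((rp q : H) : G) (Submodule.Quotient.mk f) =
        Submodule.mkQ ((Bd a N).comap (L.Z N).subtype)
          (⟨cj a N ((rp q : H) : G) f.1, cj_coc N _ f.2.1, L.conj N _ f.1 f.2.2⟩ : L.Z N) :=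
      fun q => rfl
    rw [Finset.sum_congr rfl (fun q _ => h1 q), ← map_sum, ← map_nsmul]
    have h4 : L.res' h (L.co' h hop (Submodule.Quotient.mk f)) =
        Submodule.mkQ ((Bd a N).comap (L.Z N).subtype)
        (⟨rs h ((N.subgroupOf H).index • co a (H := H) f.1),
          fun σ τ => (co_mem L h hop f.2).1 (Subgroup.inclusion h σ) (Subgroup.inclusion h τ),
          L.res h _ (co_mem L h hop f.2).2⟩ : L.Z N) := rfl
    rw [h4]
    congr 1
    apply Subtype.ext
    change rs h ((N.subgroupOf H).index • co a (H := H) f.1) = _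
    have h5 : rs h ((N.subgroupOf H).index • co a (H := H) f.1) =
        (N.subgroupOf H).index • rs h (co a (H := H) f.1) := rfl
    rw [h5, rs_co h]
    push_cast
    rfl

theorem cj_res {N H : Subgroup G} (h : N ≤ H) [hN : N.Normal] (g : G) (hg : g ∈ H) (x : L.Sh H) :
    L.cj' N g (L.res' h x) = L.res' h x := by
  induction x using Submodule.Quotient.induction_on with
  | H f =>
    obtain ⟨f, hf⟩ := f
    rw [← sub_eq_zero]
    have h0 : L.cj' N g (L.res' h (Submodule.Quotient.mk ⟨f, hf⟩)) -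
        L.res' h (Submodule.Quotient.mk ⟨f, hf⟩) =
        Submodule.mkQ ((Bd a N).comap (L.Z N).subtype)
        ((⟨cj a N g (rs h f), cj_coc N g (fun σ τ => hf.1 (Subgroup.inclusion h σ)
          (Subgroup.inclusion h τ)), L.conj N g _ (L.res h f hf.2)⟩ : L.Z N) -
          (⟨rs h f, fun σ τ => hf.1 (Subgroup.inclusion h σ)
          (Subgroup.inclusion h τ), L.res h f hf.2⟩ : L.Z N)) := rfl
    rw [h0]
    apply (Submodule.Quotient.mk_eq_zero _).2
    refine ⟨f ⟨g, hg⟩, fun σ => ?_⟩
    change a g (f (Subgroup.inclusion h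
      ⟨g⁻¹ * σ * g, by simpa using hN.conj_mem σ σ.2 g⁻¹⟩)) - f (Subgroup.inclusion h σ) = _
    have h1 := hf.1 ⟨g, hg⟩ (Subgroup.inclusion h
      ⟨g⁻¹ * σ * g, by simpa using hN.conj_mem σ σ.2 g⁻¹⟩)
    have h2 := hf.1 (Subgroup.inclusion h σ) ⟨g, hg⟩
    have h3 : (⟨g, hg⟩ : H) * Subgroup.inclusion h
      ⟨g⁻¹ * σ * g, by simpa using hN.conj_mem σ σ.2 g⁻¹⟩ = Subgroup.inclusion h σ * ⟨g, hg⟩ := by
      apply Subtype.ext
      simp [mul_assoc]
    rw [h3, h2] at h1
    have h4 : a g (f (Subgroup.inclusion h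
      ⟨g⁻¹ * σ * g, by simpa using hN.conj_mem σ σ.2 g⁻¹⟩)) =
      f (Subgroup.inclusion h σ) + a σ (f ⟨g, hg⟩) - f ⟨g, hg⟩ := by
      rw [eq_sub_iff_add_eq, add_comm]
      exact h1.symm
    rw [h4]
    abel

theorem res_killed {N H : Subgroup G} (h : N ≤ H) [hf : N.FiniteIndex] (x : L.Sh H)
    (hx : L.res' h x = 0) : (N.subgroupOf H).index • x = 0 := by
  induction x using Submodule.Quotient.induction_on with
  | H f =>
    obtain ⟨f, hf⟩ := f
    have h1 : L.res' h (Submodule.Quotient.mk ⟨f, hf⟩) =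
      Submodule.Quotient.mk (⟨rs h f, fun σ τ => hf.1 (Subgroup.inclusion h σ)
        (Subgroup.inclusion h τ), L.res h _ hf.2⟩ : L.Z N) := rfl
    rw [h1, Submodule.Quotient.mk_eq_zero] at hx
    obtain ⟨m, hm⟩ := hx
    have hm' : ∀ n : N, f (Subgroup.inclusion h n) = a n m - m := hm
    obtain ⟨S, hS⟩ := killed (D := H) (A := M) (a.comp H.subtype) (N.subgroupOf H)
      (fun σ => f σ - (a σ m - m)) (by
        intro d e
        change f (d * e) - (a (d * e : H) m - m) = f d - (a d m - m) + a d (f e - (a e m - m))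
        rw [hf.1 d e, Subgroup.coe_mul, a_mul, map_sub, map_sub]
        abel) (by
        intro c hc
        change f c - (a c m - m) = 0
        rw [sub_eq_zero]
        exact hm' ⟨c, hc⟩)
    have h3 : (N.subgroupOf H).index • (Submodule.Quotient.mk (⟨f, hf⟩ : L.Z H) : L.Sh H) =
        Submodule.mkQ ((Bd a H).comap (L.Z H).subtype)
          ((N.subgroupOf H).index • (⟨f, hf⟩ : L.Z H)) :=
      (map_nsmul (Submodule.mkQ ((Bd a H).comap (L.Z H).subtype)) (N.subgroupOf H).index
        (⟨f, hf⟩ : L.Z H)).symm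
    rw [h3]
    apply (Submodule.Quotient.mk_eq_zero _).2
    refine ⟨(N.subgroupOf H).index • m - S, fun σ => ?_⟩
    change (N.subgroupOf H).index • f σ = _
    have h4 := hS σ
    change (N.subgroupOf H).index • (f σ - (a σ m - m)) = S - a σ S at h4
    rw [smul_sub, smul_sub, sub_eq_iff_eq_add] at h4
    rw [h4, map_sub, map_nsmul]
    abel

theorem cj_mul (N : Subgroup G) [hN : N.Normal] (g h : G) (f : N → M) :
    cj a N (g * h) f = cj a N g (cj a N h f) := by
  funext n
  unfold cj
  rw [a_mul]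
  congr 2
  congr 1
  apply Subtype.ext
  simp [mul_assoc]

theorem cj'_mul (N : Subgroup G) [hN : N.Normal] (g h : G) (x : L.Sh N) :
    L.cj' N (g * h) x = L.cj' N g (L.cj' N h x) := by
  induction x using Submodule.Quotient.induction_on with
  | H f =>
    have h1 : L.cj' N (g * h) (Submodule.Quotient.mk f) = Submodule.Quotient.mk
      (⟨cj a N (g * h) f.1, cj_coc N _ f.2.1, L.conj N _ f.1 f.2.2⟩ : L.Z N) := rfl
    have h2 : L.cj' N g (L.cj' N h (Submodule.Quotient.mk f)) = Submodule.Quotient.mk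
      (⟨cj a N g (cj a N h f.1), cj_coc N _ (cj_coc N _ f.2.1),
        L.conj N _ _ (L.conj N _ f.1 f.2.2)⟩ : L.Z N) := rfl
    rw [h1, h2]
    congr 1
    apply Subtype.ext
    exact cj_mul N g h f.1

theorem cj'_one (N : Subgroup G) [hN : N.Normal] (x : L.Sh N) : L.cj' N 1 x = x := by
  induction x using Submodule.Quotient.induction_on with
  | H f =>
    have h1 : L.cj' N 1 (Submodule.Quotient.mk f) = Submodule.Quotient.mk
      (⟨cj a N 1 f.1, cj_coc N _ f.2.1, L.conj N _ f.1 f.2.2⟩ : L.Z N) := rfl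
    rw [h1]
    congr 1
    apply Subtype.ext
    funext n
    change a 1 (f.1 ⟨1⁻¹ * n * 1, _⟩) = f.1 n
    rw [map_one]
    have h2 : (⟨(1 : G)⁻¹ * n * 1, by simpa using n.2⟩ : N) = n := by
      apply Subtype.ext
      simp
    exact congrArg f.1 h2

/-- The invariant elements. -/
def LocData.inv (N : Subgroup G) [hN : N.Normal] (H : Subgroup G) : Submodule R (L.Sh N) where
  carrier := {x | ∀ h ∈ H, L.cj' N h x = x}
  add_mem' := by
    intro x y hx hy h hh
    rw [map_add, hx h hh, hy h hh]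
  zero_mem' := by
    intro h _
    rw [map_zero]
  smul_mem' := by
    intro c x hx h hh
    rw [map_smul, hx h hh]

theorem inv_sup (N : Subgroup G) [hN : N.Normal] (H K : Subgroup G) :
    L.inv N (H ⊔ K) = L.inv N H ⊓ L.inv N K := by
  apply le_antisymm
  · exact le_inf (fun x hx h hh => hx h (Subgroup.mem_sup_left hh))
      (fun x hx h hh => hx h (Subgroup.mem_sup_right hh))
  · intro x hx
    let S : Subgroup G :=
      { carrier := {g | L.cj' N g x = x}
        mul_mem' := by
          intro g h hg hh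
          change L.cj' N (g * h) x = x
          rw [cj'_mul, hh, hg]
        one_mem' := cj'_one L N x
        inv_mem' := by
          intro g hg
          change L.cj' N g⁻¹ x = x
          have h1 : L.cj' N g⁻¹ (L.cj' N g x) = x := by
            rw [← cj'_mul, inv_mul_cancel, cj'_one]
          rw [hg] at h1
          exact h1 }
    have h1 : H ⊔ K ≤ S := sup_le (fun h hh => hx.1 h hh) (fun h hh => hx.2 h hh)
    exact fun h hh => h1 hh

theorem inv_anti (N : Subgroup G) [hN : N.Normal] {H K : Subgroup G} (h : H ≤ K) :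
    L.inv N K ≤ L.inv N H := fun _ hx g hg => hx g (h hg)

/-- The rank. -/
noncomputable def LocData.cr (H : Subgroup G) : Cardinal := Module.rank R (L.Sh H)

theorem index_pos {N H : Subgroup G} [hf : N.FiniteIndex] : (N.subgroupOf H).index ≠ 0 :=
  Subgroup.FiniteIndex.index_ne_zero

theorem rank_ker_zero {R : Type*} {V W : Type*} [CommRing R] [IsDomain R] [AddCommGroup V]
    [Module R V] [AddCommGroup W] [Module R W] (φ : V →ₗ[R] W) (c : R) (hc : c ≠ 0)
    (h : ∀ v, φ v = 0 → c • v = 0) : Module.rank R (LinearMap.ker φ) = 0 := by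
  rw [rank_eq_zero_iff]
  rintro ⟨v, hv⟩
  exact ⟨c, hc, Subtype.ext (h v hv)⟩

universe u

theorem rank_eq_range {R : Type*} {V W : Type u} [CommRing R] [IsDomain R] [AddCommGroup V]
    [Module R V] [AddCommGroup W] [Module R W] (φ : V →ₗ[R] W) (c : R) (hc : c ≠ 0)
    (h : ∀ v, φ v = 0 → c • v = 0) : Module.rank R V = Module.rank R (LinearMap.range φ) := by
  rw [← φ.rank_range_add_rank_ker, rank_ker_zero φ c hc h, add_zero]

variable [IsDomain R] [CharZero R]

theorem cr_eq {N H : Subgroup G} (h : N ≤ H) [hN : N.Normal] [hf : N.FiniteIndex]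
    (hop : IsOpen (N : Set G)) : L.cr H = Module.rank R (L.inv N H) := by
  classical
  haveI : Fintype (H ⧸ N.subgroupOf H) := Fintype.ofFinite _
  have hi0 : ((N.subgroupOf H).index : R) ≠ 0 := Nat.cast_ne_zero.2 index_pos
  unfold LocData.cr
  rw [rank_eq_range (L.res' h) _ hi0 (fun x hx => by
    rw [Nat.cast_smul_eq_nsmul]
    exact res_killed L h x hx)]
  apply le_antisymm
  · apply Submodule.rank_mono
    rintro _ ⟨x, rfl⟩ g hg
    exact cj_res L h g hg x
  · set k : R := (((N.subgroupOf H).index ^ 2 : ℕ) : R) with hk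
    have hk0 : k ≠ 0 := by
      rw [hk]
      exact Nat.cast_ne_zero.2 (pow_ne_zero _ index_pos)
    let φ : L.inv N H →ₗ[R] LinearMap.range (L.res' h) :=
      LinearMap.codRestrict _ (k • (L.inv N H).subtype) (fun x => by
        refine ⟨L.co' h hop x.1, ?_⟩
        rw [res_co]
        have h1 : ∀ q : H ⧸ N.subgroupOf H, L.cj' N ((rp q : H) : G) x.1 = x.1 :=
          fun q => x.2 _ (rp q).2
        rw [Finset.sum_congr rfl (fun q _ => h1 q), Finset.sum_const, Finset.card_univ,
          ← mul_smul, hk]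
        change _ = (((N.subgroupOf H).index ^ 2 : ℕ) : R) • x.1
        rw [Nat.cast_smul_eq_nsmul, sq]
        congr 2
        rw [Subgroup.index, Nat.card_eq_fintype_card])
    rw [rank_eq_range φ k hk0 (fun x hx => by
      have h1 := congrArg Subtype.val hx
      exact Subtype.ext h1)]
    exact Submodule.rank_le _

theorem cr_super {H K : Subgroup G} (N : Subgroup G) [hN : N.Normal] [hf : N.FiniteIndex]
    (hop : IsOpen (N : Set G)) (hH : N ≤ H) (hK : N ≤ K) :
    L.cr H + L.cr K ≤ L.cr (H ⊓ K) + L.cr (H ⊔ K) := by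
  rw [cr_eq L hH hop, cr_eq L hK hop, cr_eq L (le_inf hH hK) hop,
    cr_eq L (hH.trans le_sup_left) hop, inv_sup, ← Submodule.rank_sup_add_rank_inf_eq]
  exact add_le_add_left (Submodule.rank_mono
    (sup_le (inv_anti L N inf_le_left) (inv_anti L N inf_le_right))) _

theorem cr_anti {H K : Subgroup G} (N : Subgroup G) [hN : N.Normal] [hf : N.FiniteIndex]
    (hop : IsOpen (N : Set G)) (hH : N ≤ H) (hK : H ≤ K) :
    L.cr K ≤ L.cr H := by
  rw [cr_eq L hH hop, cr_eq L (hH.trans hK) hop]
  exact Submodule.rank_mono (inv_anti L N hK)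

/-- The rank of a conjugate subgroup. -/
theorem cr_conj_le {H K : Subgroup G} (N : Subgroup G) [hN : N.Normal] [hf : N.FiniteIndex]
    (hop : IsOpen (N : Set G)) (hH : N ≤ H) (hNK : N ≤ K) (g : G)
    (hK : ∀ k ∈ K, g⁻¹ * k * g ∈ H) : L.cr H ≤ L.cr K := by
  rw [cr_eq L hH hop, cr_eq L hNK hop]
  let φ : L.inv N H →ₗ[R] L.inv N K :=
    LinearMap.codRestrict _ ((L.cj' N g).comp (L.inv N H).subtype) (fun x k hk => by
      change L.cj' N k (L.cj' N g x.1) = L.cj' N g x.1
      have h2 : L.cj' N (g⁻¹ * k * g) x.1 = x.1 := x.2 _ (hK k hk)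
      conv_rhs => rw [← h2]
      rw [← cj'_mul, ← cj'_mul]
      congr 2
      group)
  have hφ : Function.Injective φ := by
    rw [← LinearMap.ker_eq_bot, LinearMap.ker_eq_bot']
    intro x hx
    have h2 : L.cj' N g x.1 = 0 := congrArg Subtype.val hx
    apply Subtype.ext
    have h3 := cj'_mul L N g⁻¹ g x.1
    rw [inv_mul_cancel, cj'_one, h2, map_zero] at h3
    exact h3
  exact LinearMap.rank_le_of_injective φ hφ

end Pool.Agent.U10.Shr
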