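import Pool.Agent.U10.Shr.Fam

/-!
The Tate twists of `ℤ_p` over a number field.
-/

set_option linter.unusedSectionVars false
set_option linter.style.haveILetI false

namespace Pool.Agent.U10.Shr

open Module

variable {k : Type*} [Field k]

/-- The value at `σ` of the `r`-th power of the `p`-adic cyclotomic character. -/
noncomputable def chi (p : ℕ) [Fact p.Prime] (r : ℤ)
    (σ : AlgebraicClosure k ≃ₐ[k] AlgebraicClosure k) : ℤ_[p] :=
  ((cyclotomicCharacter (AlgebraicClosure k) p
    (σ : AlgebraicClosure k ≃+* AlgebraicClosure k) ^ r : ℤ_[p]ˣ) : ℤ_[p])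

theorem chi_mul (p : ℕ) [Fact p.Prime] (r : ℤ)
    (σ τ : AlgebraicClosure k ≃ₐ[k] AlgebraicClosure k) :
    chi p r (σ * τ) = chi p r σ * chi p r τ := by
  unfold chi
  rw [← Units.val_mul, ← mul_zpow, ← map_mul]
  rfl

theorem chi_one (p : ℕ) [Fact p.Prime] (r : ℤ) :
    chi p r (1 : AlgebraicClosure k ≃ₐ[k] AlgebraicClosure k) = 1 := by
  have h1 : ((1 : AlgebraicClosure k ≃ₐ[k] AlgebraicClosure k) :
    AlgebraicClosure k ≃+* AlgebraicClosure k) = 1 := rfl
  unfold chi
  rw [h1, map_one, one_zpow, Units.val_one]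

/-- The action of the Galois group on `ℤ_p(r)`. -/
noncomputable def tw (k : Type*) [Field k] (p : ℕ) [Fact p.Prime] (r : ℤ) :
    (AlgebraicClosure k ≃ₐ[k] AlgebraicClosure k) →* Module.End ℤ_[p] ℤ_[p] where
  toFun σ := LinearMap.mulLeft ℤ_[p] (chi p r σ)
  map_one' := by
    refine LinearMap.ext fun x => ?_
    change chi p r 1 * x = x
    rw [chi_one, one_mul]
  map_mul' σ τ := by
    refine LinearMap.ext fun x => ?_
    change chi p r (σ * τ) * x = chi p r σ * (chi p r τ * x)
    rw [chi_mul, mul_assoc]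

theorem tw_cont (p : ℕ) [Fact p.Prime] (r : ℤ)
    (σ : AlgebraicClosure k ≃ₐ[k] AlgebraicClosure k) : Continuous (tw k p r σ) :=
  continuous_const.mul continuous_id

/-- The local conditions. -/
noncomputable def twData (p : ℕ) [Fact p.Prime] (r : ℤ) (S : Set (ValuationSubring k)) :
    LocData (tw k p r) :=
  famData (tw k p r) (tw_cont p r) (famS k (AlgebraicClosure k) S) (famS_conj k S)

end Pool.Agent.U10.Shr
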