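import Pool.Agent.U10.Shr.Fld

/-!
Finite groups of matrices over `ℤ_p` are isomorphic to their reductions modulo `p` (`4` if `p = 2`).
-/

set_option linter.unusedSectionVars false
set_option linter.style.haveILetI false

namespace Pool.Agent.U10.Shr

open Module

variable {p : ℕ} [hp : Fact p.Prime] {n : ℕ}

theorem expand {A : Type*} [Ring A] (X : A) (m : ℕ) :
    ∃ Z : A, (1 + X) ^ m = 1 + (m : A) * X + (m.choose 2 : A) * (X * X) + X * X * X * Z := by
  induction m with
  | zero => exact ⟨0, by simp⟩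
  | succ m ih =>
    obtain ⟨Z, hZ⟩ := ih
    refine ⟨(m.choose 2 : A) + Z + Z * X, ?_⟩
    have h1 : ((m + 1).choose 2 : A) = (m : A) + (m.choose 2 : A) := by
      rw [Nat.choose_succ_succ' m 1, Nat.choose_one_right]
      push_cast
      rfl
    rw [pow_succ, hZ, h1]
    have h2 : (m.choose 2 : A) * (X * X) * X = X * X * X * (m.choose 2 : A) := by
      rw [mul_assoc]
      exact (Nat.cast_commute _ _).eq
    have h3 : (m : A) * X * X = (m : A) * (X * X) := mul_assoc _ _ _
    push_cast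
    simp only [mul_add, add_mul, mul_one, one_mul, h2, h3]
    simp only [← mul_assoc]
    abel

/-- The step of the descent. -/
theorem step {l : ℕ} (hl : l.Prime) {a : ℕ} (ha : 1 ≤ a) (ha2 : p = 2 → 2 ≤ a)
    (C : Matrix (Fin n) (Fin n) ℤ_[p]) (h : (1 + (p : ℤ_[p]) ^ a • C) ^ l = 1) :
    ∃ C', C = (p : ℤ_[p]) • C' := by
  have hp0 : (p : ℤ_[p]) ≠ 0 := Nat.cast_ne_zero.2 hp.out.ne_zero
  obtain ⟨b, rfl⟩ : ∃ b, a = b + 1 := ⟨a - 1, by omega⟩
  obtain ⟨Z, hZ⟩ := expand ((p : ℤ_[p]) ^ (b + 1) • C) l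
  rw [h] at hZ
  have h0 : (l : Matrix (Fin n) (Fin n) ℤ_[p]) * ((p : ℤ_[p]) ^ (b + 1) • C) +
      (l.choose 2 : Matrix (Fin n) (Fin n) ℤ_[p]) *
        ((p : ℤ_[p]) ^ (b + 1) • C * ((p : ℤ_[p]) ^ (b + 1) • C)) +
      (p : ℤ_[p]) ^ (b + 1) • C * ((p : ℤ_[p]) ^ (b + 1) • C) * ((p : ℤ_[p]) ^ (b + 1) • C) * Z =
        0 := by
    have h1 := hZ.symm
    rw [add_assoc, add_assoc, add_eq_left] at h1
    rw [add_assoc]
    exact h1
  have hcast : ∀ (j : ℕ) (X : Matrix (Fin n) (Fin n) ℤ_[p]),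
      (j : Matrix (Fin n) (Fin n) ℤ_[p]) * X = (j : ℤ_[p]) • X := by
    intro j X
    rw [Nat.cast_smul_eq_nsmul, nsmul_eq_mul]
  rw [hcast, hcast] at h0
  simp only [smul_mul_assoc, mul_smul_comm, smul_smul] at h0
  by_cases hlp : l = p
  · subst hlp
    by_cases h2 : l = 2
    · subst h2
      obtain ⟨d, rfl⟩ : ∃ d, b = d + 1 := ⟨b - 1, by have := ha2 rfl; omega⟩
      refine ⟨-((2 : ℤ_[2]) ^ d • (C * C) + (2 : ℤ_[2]) ^ (2 * d + 2) • (C * C * C * Z)), ?_⟩
      refine smul_right_injective _ (pow_ne_zero (d + 3) hp0) ?_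
      change ((2 : ℕ) : ℤ_[2]) ^ (d + 3) • C = ((2 : ℕ) : ℤ_[2]) ^ (d + 3) • _
      rw [← sub_eq_zero]
      rw [← h0]
      push_cast
      rw [Nat.choose_self]
      push_cast
      module
    · obtain ⟨c, hc⟩ : ∃ c, l.choose 2 = l * c := by
        have h3 : l ∣ l.choose 2 := hl.dvd_choose_self two_ne_zero (by
          have := hl.two_le
          omega)
        exact h3
      rw [hc] at h0
      refine ⟨-((c : ℤ_[l]) • (l : ℤ_[l]) ^ b • (C * C) +
        (l : ℤ_[l]) ^ (2 * b) • (C * C * C * Z)), ?_⟩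
      refine smul_right_injective _ (pow_ne_zero (b + 2) hp0) ?_
      change (l : ℤ_[l]) ^ (b + 2) • C = (l : ℤ_[l]) ^ (b + 2) • _
      rw [← sub_eq_zero]
      rw [← h0]
      push_cast
      module
  · have hu : IsUnit (l : ℤ_[p]) := by
      rw [PadicInt.isUnit_iff, PadicInt.norm_natCast_eq_one_iff]
      exact (Nat.coprime_primes hp.out hl).2 (Ne.symm hlp)
    obtain ⟨u, hu⟩ := hu
    set W : Matrix (Fin n) (Fin n) ℤ_[p] := -(((l.choose 2 : ℤ_[p])) • (p : ℤ_[p]) ^ b • (C * C) +
        (p : ℤ_[p]) ^ (2 * b + 1) • (C * C * C * Z)) with hW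
    have h3 : (u : ℤ_[p]) • C = (p : ℤ_[p]) • W := by
      refine smul_right_injective _ (pow_ne_zero (b + 1) hp0) ?_
      change (p : ℤ_[p]) ^ (b + 1) • _ = (p : ℤ_[p]) ^ (b + 1) • _
      rw [← sub_eq_zero, ← h0, hu, hW]
      module
    refine ⟨((u⁻¹ : (ℤ_[p])ˣ) : ℤ_[p]) • W, ?_⟩
    rw [smul_comm, ← h3, smul_smul, Units.inv_mul, one_smul]

/-- The exponent of the modulus. -/
def ex (p : ℕ) : ℕ := if p = 2 then 2 else 1

theorem prime_case {l : ℕ} (hl : l.Prime) (B C : Matrix (Fin n) (Fin n) ℤ_[p])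
    (hB : B = 1 + (p : ℤ_[p]) ^ ex p • C) (h : B ^ l = 1) : B = 1 := by
  have h1 : ∀ j : ℕ, ∃ D, B = 1 + (p : ℤ_[p]) ^ (ex p + j) • D := by
    intro j
    induction j with
    | zero => exact ⟨C, hB⟩
    | succ j ih =>
      obtain ⟨D, hD⟩ := ih
      obtain ⟨D', hD'⟩ := step hl (a := ex p + j) (by unfold ex; split_ifs <;> omega)
        (by intro h; unfold ex; rw [if_pos h]; omega) D (by rw [← hD, h])
      refine ⟨D', ?_⟩
      rw [hD, hD', smul_smul, ← pow_succ]
      rfl
  ext i k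
  rw [← PadicInt.ext_of_toZModPow]
  intro j
  obtain ⟨D, hD⟩ := h1 j
  rw [hD, Matrix.add_apply, Matrix.smul_apply, map_add, smul_eq_mul, map_mul, pow_add, map_mul]
  have h2 : PadicInt.toZModPow j ((p : ℤ_[p]) ^ j) = 0 := by
    rw [← RingHom.mem_ker, PadicInt.ker_toZModPow]
    exact Ideal.mem_span_singleton_self _
  rw [h2, mul_zero, zero_mul, add_zero]

theorem fin_case (m : ℕ) (hm : m ≠ 0) (B C : Matrix (Fin n) (Fin n) ℤ_[p])
    (hB : B = 1 + (p : ℤ_[p]) ^ ex p • C) (h : B ^ m = 1) : B = 1 := by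
  induction m using Nat.strong_induction_on with
  | _ m ih =>
    by_cases h1 : m = 1
    · rwa [h1, pow_one] at h
    · obtain ⟨l, hl, d, rfl⟩ := Nat.exists_prime_and_dvd h1
      have hd : d ≠ 0 := by
        rintro rfl
        exact hm (mul_zero l)
      have h2 : ∃ D, B ^ d = 1 + (p : ℤ_[p]) ^ ex p • D := by
        clear ih h hm hd h1
        induction d with
        | zero => exact ⟨0, by simp⟩
        | succ d ih =>
          obtain ⟨D, hD⟩ := ih
          refine ⟨D + C + (p : ℤ_[p]) ^ ex p • (D * C), ?_⟩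
          rw [pow_succ, hD, hB]
          simp only [mul_add, add_mul, mul_one, one_mul, smul_mul_assoc, mul_smul_comm]
          module
      obtain ⟨D, hD⟩ := h2
      have h3 : B ^ d = 1 := prime_case hl _ D hD (by rw [← pow_mul, mul_comm, h])
      have hlt : d < l * d := by
        have := hl.two_le
        nlinarith [Nat.pos_of_ne_zero hd]
      exact ih d hlt hd h3

/-- A matrix over `ℤ_p` of finite order which is trivial modulo `p` (`4` if `p = 2`) is trivial. -/
theorem eq_one_of_map (m : ℕ) (hm : m ≠ 0) (B : Matrix (Fin n) (Fin n) ℤ_[p]) (h : B ^ m = 1)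
    (hB : B.map (PadicInt.toZModPow (ex p)) = 1) : B = 1 := by
  have h1 : ∀ i k, ∃ c, (B - 1) i k = (p : ℤ_[p]) ^ ex p * c := by
    intro i k
    have h2 : (B - 1) i k ∈ RingHom.ker (PadicInt.toZModPow (p := p) (ex p)) := by
      rw [RingHom.mem_ker, Matrix.sub_apply, map_sub]
      have h3 := congrFun (congrFun hB i) k
      rw [Matrix.map_apply] at h3
      rw [h3, sub_eq_zero, Matrix.one_apply, Matrix.one_apply]
      split_ifs <;> simp
    rw [PadicInt.ker_toZModPow, Ideal.mem_span_singleton] at h2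
    exact h2
  choose c hc using h1
  refine fin_case m hm B (Matrix.of c) ?_ h
  ext i k
  have h4 := hc i k
  rw [Matrix.sub_apply, sub_eq_iff_eq_add'] at h4
  rw [h4]
  rfl

/-- The reduction of matrices. -/
noncomputable def red (p : ℕ) [Fact p.Prime] (c : ℕ) : Matrix (Fin c) (Fin c) ℤ_[p] →+*
    Matrix (Fin c) (Fin c) (ZMod (p ^ ex p)) :=
  (PadicInt.toZModPow (ex p)).mapMatrix

/-- A group acting on a torsion-free module of finite rank through a finite quotient `G/N`, which acts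
faithfully: the quotient embeds in the group of matrices over a finite ring. -/
theorem embed_free {G : Type*} [Group G] (N : Subgroup G) [N.Normal] [N.FiniteIndex] {S : Type*}
    [AddCommGroup S] [Module ℤ_[p] S] [IsTorsionFree ℤ_[p] S] (ρ : G →* Module.End ℤ_[p] S)
    (hN : ∀ g, ρ g = 1 ↔ g ∈ N) (c : ℕ) (hc : Module.rank ℤ_[p] S = c) :
    ∃ φ : G →* GL (Fin c) (ZMod (p ^ ex p)), φ.ker = N := by
  classical
  obtain ⟨s, hs, hli⟩ := exists_set_linearIndependent_of_isDomain ℤ_[p] S
  have hsf : s.Finite := by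
    rw [← Cardinal.lt_aleph0_iff_set_finite, hs, hc]
    exact Cardinal.natCast_lt_aleph0
  have hrf : (Set.range ρ).Finite := by
    have h1 : Set.range ρ ⊆ Set.range (QuotientGroup.lift N ρ (fun g hg => (hN g).2 hg)) := by
      rintro _ ⟨g, rfl⟩
      exact ⟨(g : G ⧸ N), rfl⟩
    exact (Set.finite_range _).subset h1
  have hgN : ∀ g : G, ρ g ^ N.index = 1 := by
    intro g
    rw [← map_pow, hN]
    exact N.pow_index_mem g
  set P : Set S := Set.image2 (fun f v => f v) (Set.range ρ) s with hP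
  have hPf : P.Finite := hrf.image2 _ hsf
  set L : Submodule ℤ_[p] S := Submodule.span ℤ_[p] P with hL
  haveI : Module.Finite ℤ_[p] L := Module.Finite.span_of_finite _ hPf
  have hsL : Submodule.span ℤ_[p] s ≤ L := by
    apply Submodule.span_mono
    intro v hv
    exact ⟨1, ⟨1, map_one ρ⟩, v, hv, rfl⟩
  have hst : ∀ g : G, ∀ x ∈ L, ρ g x ∈ L := by
    intro g x hx
    have h1 : L ≤ L.comap (ρ g) := by
      rw [hL, Submodule.span_le]
      rintro _ ⟨_, ⟨h, rfl⟩, v, hv, rfl⟩
      refine Submodule.subset_span ⟨ρ (g * h), ⟨_, rfl⟩, v, hv, ?_⟩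
      change ρ (g * h) v = ρ g (ρ h v)
      rw [map_mul]
      rfl
    exact h1 hx
  have hrL : Module.rank ℤ_[p] L = c := by
    apply le_antisymm
    · rw [← hc]
      exact Submodule.rank_le L
    · rw [← hc, ← hs, ← rank_span_set hli]
      exact Submodule.rank_mono hsL
  have htors : ∀ x : S, ∃ r : ℤ_[p], r ≠ 0 ∧ r • x ∈ L := by
    have h1 := rank_quotient_add_rank_of_isDomain (R := ℤ_[p]) L
    rw [hrL, hc] at h1
    have h2 : Module.rank ℤ_[p] (S ⧸ L) = 0 := by
      have h3 : Module.rank ℤ_[p] (S ⧸ L) < Cardinal.aleph0 :=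
        (self_le_add_right _ _).trans_lt (h1.trans_lt Cardinal.natCast_lt_aleph0)
      obtain ⟨d, hd⟩ := Cardinal.lt_aleph0.1 h3
      rw [hd] at h1 ⊢
      have h4 : d + c = c := by exact_mod_cast h1
      have h5 : d = 0 := by omega
      rw [h5, Nat.cast_zero]
    rw [rank_eq_zero_iff] at h2
    intro x
    obtain ⟨r, hr, h3⟩ := h2 (Submodule.Quotient.mk x)
    exact ⟨r, hr, (Submodule.Quotient.mk_eq_zero L).1 h3⟩
  haveI : Module.Free ℤ_[p] L := Module.free_of_finite_type_torsion_free'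
  have hfr : Module.finrank ℤ_[p] L = c := Module.finrank_eq_of_rank_eq hrL
  let b : Basis (Fin c) ℤ_[p] L := Module.finBasisOfFinrankEq ℤ_[p] L hfr
  let ρL : G →* Module.End ℤ_[p] L :=
    { toFun := fun g => (ρ g).restrict (hst g)
      map_one' := by
        ext x
        change ρ 1 x = x
        rw [map_one]
        rfl
      map_mul' := by
        intro g h
        ext x
        change ρ (g * h) x = ρ g (ρ h x)
        rw [map_mul]
        rfl }
  let A : Module.End ℤ_[p] L →* Matrix (Fin c) (Fin c) ℤ_[p] :=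
    (LinearMap.toMatrixAlgEquiv b : Module.End ℤ_[p] L →* Matrix (Fin c) (Fin c) ℤ_[p])
  let φ : G →* GL (Fin c) (ZMod (p ^ ex p)) :=
    MonoidHom.toHomUnits (((red p c).toMonoidHom.comp A).comp ρL)
  refine ⟨φ, ?_⟩
  ext g
  rw [MonoidHom.mem_ker, ← hN]
  constructor
  · intro h
    have h1 : (A (ρL g)).map (PadicInt.toZModPow (ex p)) = 1 := congrArg Units.val h
    have hL1 : ρL g ^ N.index = 1 := by
      ext x
      rw [← map_pow]
      change ρ (g ^ N.index) x = x
      rw [map_pow, hgN]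
      rfl
    have h2 : A (ρL g) = 1 := by
      refine eq_one_of_map N.index Subgroup.FiniteIndex.index_ne_zero _ ?_ h1
      rw [← map_pow, hL1, map_one]
    have h3 : ρL g = 1 := by
      apply (LinearMap.toMatrixAlgEquiv b).injective
      rw [map_one]
      exact h2
    ext x
    obtain ⟨r, hr, hx⟩ := htors x
    have h4 : ρ g (r • x) = r • x := congrArg Subtype.val (LinearMap.congr_fun h3 ⟨r • x, hx⟩)
    rw [map_smul] at h4
    exact smul_right_injective S hr h4
  · intro h
    have h1 : ρL g = 1 := by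
      ext x
      change ρ g x = x
      rw [h]
      rfl
    apply Units.ext
    change red p c (A (ρL g)) = 1
    rw [h1, map_one, map_one]

/-- The elements fixed up to torsion are up to torsion fixed. -/
theorem rank_fix {R S : Type*} [CommRing R] [IsDomain R] [CharZero R] [AddCommGroup S] [Module R S]
    (f : Module.End R S) (n : ℕ) (hn : n ≠ 0) (hf : f ^ n = 1)
    (h : ∀ x, ∃ r : R, r ≠ 0 ∧ r • (f x - x) = 0) :
    Module.rank R (LinearMap.ker (f - 1)) = Module.rank R S := by
  suffices h0 : Module.rank R (S ⧸ LinearMap.ker (f - 1)) = 0 by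
    rw [← rank_quotient_add_rank_of_isDomain (M := S) (LinearMap.ker (f - 1)), h0, zero_add]
  rw [rank_eq_zero_iff]
  intro q
  obtain ⟨x, rfl⟩ := Submodule.Quotient.mk_surjective _ q
  have h1 : ∀ j : ℕ, ∃ r : R, r ≠ 0 ∧ r • ((f ^ j) x - x) = 0 := by
    intro j
    induction j with
    | zero => exact ⟨1, one_ne_zero, by simp⟩
    | succ j ih =>
      obtain ⟨r, hr, h2⟩ := ih
      obtain ⟨t, ht, h3⟩ := h ((f ^ j) x)
      refine ⟨r * t, mul_ne_zero hr ht, ?_⟩
      have h4 : (f ^ (j + 1)) x - x = (f ((f ^ j) x) - (f ^ j) x) + ((f ^ j) x - x) := by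
        rw [pow_succ']
        change f ((f ^ j) x) - x = _
        abel
      rw [h4, smul_add, mul_smul, h3, smul_zero, zero_add, mul_comm, mul_smul, h2, smul_zero]
  choose r hr h2 using h1
  refine ⟨(∏ j ∈ Finset.range n, r j) * n, mul_ne_zero (Finset.prod_ne_zero_iff.2
    (fun j _ => hr j)) (Nat.cast_ne_zero.2 hn), ?_⟩
  have h3 : ((∏ j ∈ Finset.range n, r j) * n) • x =
      (∏ j ∈ Finset.range n, r j) • ∑ j ∈ Finset.range n, (f ^ j) x := by
    rw [← sub_eq_zero, mul_smul, ← smul_sub, Nat.cast_smul_eq_nsmul]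
    have h4 : n • x - ∑ j ∈ Finset.range n, (f ^ j) x =
        -∑ j ∈ Finset.range n, ((f ^ j) x - x) := by
      rw [Finset.sum_sub_distrib, Finset.sum_const, Finset.card_range]
      abel
    rw [h4, smul_neg, neg_eq_zero, Finset.smul_sum]
    refine Finset.sum_eq_zero (fun j hj => ?_)
    rw [← Finset.prod_erase_mul _ _ hj, mul_smul, h2, smul_zero]
  rw [← Submodule.Quotient.mk_smul, h3, Submodule.Quotient.mk_eq_zero]
  refine Submodule.smul_mem _ _ ?_
  rw [LinearMap.mem_ker, LinearMap.sub_apply, map_sum]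
  have h5 : ∑ j ∈ Finset.range n, f ((f ^ j) x) = ∑ j ∈ Finset.range n, (f ^ (j + 1)) x := by
    refine Finset.sum_congr rfl (fun j _ => ?_)
    rw [pow_succ']
    rfl
  rw [h5]
  change _ - ∑ j ∈ Finset.range n, (f ^ j) x = 0
  obtain ⟨m, rfl⟩ : ∃ m, n = m + 1 := ⟨n - 1, by omega⟩
  rw [Finset.sum_range_succ, Finset.sum_range_succ' (fun j => (f ^ j) x) m, hf]
  simp

/-- A group acting on a module of finite rank through a finite quotient `G/N`, such that the fixed
elements of the other elements have smaller rank. -/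
theorem embed {G : Type*} [Group G] (N : Subgroup G) [N.Normal] [N.FiniteIndex] {S : Type*}
    [AddCommGroup S] [Module ℤ_[p] S] (ρ : G →* Module.End ℤ_[p] S)
    (hN : ∀ g ∈ N, ρ g = 1) (c : ℕ) (hc : Module.rank ℤ_[p] S = c)
    (hmin : ∀ g ∉ N, Module.rank ℤ_[p] (LinearMap.ker (ρ g - 1)) ≠ c) :
    ∃ φ : G →* GL (Fin c) (ZMod (p ^ ex p)), φ.ker = N := by
  have hst : ∀ f : Module.End ℤ_[p] S,
      Submodule.torsion ℤ_[p] S ≤ (Submodule.torsion ℤ_[p] S).comap f := by
    intro f x hx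
    obtain ⟨r, hr⟩ := hx
    refine ⟨r, ?_⟩
    have h1 : f (r • x) = r • f x := map_smul f (r : ℤ_[p]) x
    rw [← h1, hr, map_zero]
  let ρ' : G →* Module.End ℤ_[p] (S ⧸ Submodule.torsion ℤ_[p] S) :=
    { toFun := fun g => Submodule.mapQ _ _ (ρ g) (hst (ρ g))
      map_one' := by
        apply LinearMap.ext
        intro q
        obtain ⟨x, rfl⟩ := Submodule.Quotient.mk_surjective _ q
        rw [Submodule.mapQ_apply, map_one]
        rfl
      map_mul' := by
        intro g h
        apply LinearMap.ext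
        intro q
        obtain ⟨x, rfl⟩ := Submodule.Quotient.mk_surjective _ q
        rw [Submodule.mapQ_apply, map_mul]
        rfl }
  refine embed_free N ρ' (fun g => ?_) c ?_
  · constructor
    · intro h
      by_contra hg
      refine hmin g hg ?_
      rw [rank_fix (ρ g) N.index Subgroup.FiniteIndex.index_ne_zero ?_ ?_, hc]
      · rw [← map_pow]
        exact hN _ (N.pow_index_mem g)
      · intro x
        have h1 : ρ' g (Submodule.Quotient.mk x) = Submodule.Quotient.mk x := by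
          rw [h]
          rfl
        have h2 : (Submodule.Quotient.mk (ρ g x) : S ⧸ Submodule.torsion ℤ_[p] S) =
          Submodule.Quotient.mk x := h1
        rw [Submodule.Quotient.eq] at h2
        obtain ⟨r, hr⟩ := h2
        exact ⟨r, nonZeroDivisors.coe_ne_zero r, hr⟩
    · intro h
      apply LinearMap.ext
      intro q
      obtain ⟨x, rfl⟩ := Submodule.Quotient.mk_surjective _ q
      change Submodule.Quotient.mk (ρ g x) = _
      rw [hN g h]
      rfl
  · rw [← hc, ← rank_quotient_add_rank_of_isDomain (Submodule.torsion ℤ_[p] S)]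
    have h1 : Module.rank ℤ_[p] (Submodule.torsion ℤ_[p] S) = 0 := by
      rw [rank_eq_zero_iff]
      rintro ⟨x, r, hr⟩
      exact ⟨r, nonZeroDivisors.coe_ne_zero r, Subtype.ext hr⟩
    rw [h1, add_zero]

end Pool.Agent.U10.Shr
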