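import Pool.Agent.U10.Shr.Rep

/-!
The local conditions given by a family of subgroups (decomposition groups and inertia groups).
-/

set_option linter.unusedSectionVars false
set_option linter.style.haveILetI false

namespace Pool.Agent.U10.Shr

open Module

section fam

variable {R : Type*} [CommRing R] {G M : Type*} [Group G] [TopologicalSpace G] [AddCommGroup M]
  [Module R M]

/-- The function `f` on `H` is a coboundary on `H ∩ D`. -/
def LocOn (a : G →* Module.End R M) (H D : Subgroup G) (f : H → M) : Prop :=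
  ∃ m : M, ∀ σ : H, (σ : G) ∈ D → f σ = a σ m - m

variable {a : G →* Module.End R M} {N H D : Subgroup G}

theorem locOn_zero : LocOn a H D 0 := ⟨0, fun σ _ => by rw [Pi.zero_apply, map_zero, sub_zero]⟩

theorem locOn_add {f g : H → M} (hf : LocOn a H D f) (hg : LocOn a H D g) :
    LocOn a H D (f + g) := by
  obtain ⟨P, hP⟩ := hf
  obtain ⟨Q, hQ⟩ := hg
  refine ⟨P + Q, fun σ h => ?_⟩
  rw [Pi.add_apply, hP σ h, hQ σ h, map_add]
  abel

theorem locOn_smul (c : R) {f : H → M} (hf : LocOn a H D f) : LocOn a H D (c • f) := by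
  obtain ⟨P, hP⟩ := hf
  refine ⟨c • P, fun σ h => ?_⟩
  rw [Pi.smul_apply, hP σ h, map_smul, smul_sub]

theorem locOn_res (h : N ≤ H) {f : H → M} (hf : LocOn a H D f) : LocOn a N D (rs h f) := by
  obtain ⟨P, hP⟩ := hf
  exact ⟨P, fun σ hh => hP (Subgroup.inclusion h σ) hh⟩

theorem locOn_conj [hN : N.Normal] (g : G) {D' : Subgroup G} (hD : ∀ σ ∈ D, g⁻¹ * σ * g ∈ D')
    {f : N → M} (hf : LocOn a N D' f) : LocOn a N D (cj a N g f) := by
  obtain ⟨P, hP⟩ := hf
  refine ⟨a g P, fun σ hh => ?_⟩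
  have h1 := hP ⟨g⁻¹ * σ * g, by simpa using hN.conj_mem σ σ.2 g⁻¹⟩ (hD _ hh)
  change a g (f _) = _
  rw [h1, map_sub]
  congr 1
  exact a_eq a (by simp [mul_assoc]) _

theorem locOn_idx (h : N ≤ H) [hN : N.Normal] [hfi : N.FiniteIndex] {f : H → M}
    (hf : IsCoc a H f) (hl : LocOn a N D (rs h f)) :
    LocOn a H D ((N.subgroupOf H).index • f) := by
  classical
  obtain ⟨P, hP⟩ := hl
  let π : D.subgroupOf H →* H := (D.subgroupOf H).subtype
  let aB : D.subgroupOf H →* Module.End R M := (a.comp H.subtype).comp π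
  let C : Subgroup (D.subgroupOf H) := (N.subgroupOf H).comap π
  have hdvd : C.index ∣ (N.subgroupOf H).index := by
    have h1 : C.index = (N.subgroupOf H).relIndex π.range := Subgroup.index_comap _ _
    rw [h1]
    exact Subgroup.relIndex_dvd_index_of_normal _ _
  haveI : C.FiniteIndex := ⟨fun h0 => by
    rw [h0, zero_dvd_iff] at hdvd
    exact index_pos hdvd⟩
  obtain ⟨c, hc⟩ := hdvd
  obtain ⟨S, hS⟩ := killed aB C (fun x => f (π x) - (aB x P - P)) (by
      intro x y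
      change f (π (x * y)) - (aB (x * y) P - P) =
        f (π x) - (aB x P - P) + aB x (f (π y) - (aB y P - P))
      rw [map_mul π, hf, map_mul aB, map_sub, map_sub]
      change f (π x) + aB x (f (π y)) - (aB x (aB y P) - P) = _
      abel) (by
      intro x hx
      refine sub_eq_zero.2 ?_
      exact hP ⟨_, hx⟩ x.2)
  refine ⟨(N.subgroupOf H).index • P - c • S, fun σ hh => ?_⟩
  have h1 := hS ⟨σ, hh⟩
  have h2 : C.index • (f σ - (a σ P - P)) = S - a σ S := h1
  have h3 : (N.subgroupOf H).index • (f σ - (a σ P - P)) = c • (S - a σ S) := by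
    rw [← h2, ← mul_smul, hc, mul_comm]
  rw [Pi.smul_apply, map_sub, map_nsmul, map_nsmul]
  rw [smul_sub, smul_sub, smul_sub, sub_eq_iff_eq_add] at h3
  rw [h3]
  abel

variable [IsTopologicalGroup G] [TopologicalSpace M]
  [IsTopologicalAddGroup M] [ContinuousConstSMul R M] (a)

/-- The continuous functions which are coboundaries on the groups of the family. -/
def famP (F : Set (Subgroup G)) (H : Subgroup G) : Submodule R (H → M) where
  carrier := {f | Continuous f ∧ ∀ D ∈ F, LocOn a H D f}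
  add_mem' := fun hf hg => ⟨hf.1.add hg.1, fun D hD => locOn_add (hf.2 D hD) (hg.2 D hD)⟩
  zero_mem' := ⟨continuous_const, fun _ _ => locOn_zero⟩
  smul_mem' := fun c _ hf => ⟨hf.1.const_smul c, fun D hD => locOn_smul c (hf.2 D hD)⟩

/-- The local conditions of a family of subgroups stable under conjugation. -/
def famData (ha : ∀ g, Continuous (a g)) (F : Set (Subgroup G))
    (hF : ∀ D ∈ F, ∀ g : G, ∃ D' ∈ F, ∀ σ ∈ D, g⁻¹ * σ * g ∈ D') : LocData a where
  P := famP a F
  res := fun h f hf => ⟨ct_rs h hf.1, fun D hD => locOn_res h (hf.2 D hD)⟩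
  conj := fun N _ g f hf => ⟨ct_cj ha N g hf.1, fun D hD => by
    obtain ⟨D', h1, h2⟩ := hF D hD g
    exact locOn_conj g h2 (hf.2 D' h1)⟩
  idx := fun h _ _ f hop hf hl => ⟨(ct_idx ha h hop hf hl.1).const_smul _,
    fun D hD => locOn_idx h hf (hl.2 D hD)⟩

end fam

section groups

variable (k : Type*) {A : Type*} [Field k] [Field A] [Algebra k A]

/-- The decomposition group of a valuation ring. -/
def dec (V : ValuationSubring A) : Subgroup (A ≃ₐ[k] A) where
  carrier := {σ | ∀ x, σ x ∈ V ↔ x ∈ V}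
  mul_mem' := by
    intro σ τ hσ hτ x
    exact (hσ (τ x)).trans (hτ x)
  one_mem' := fun x => Iff.rfl
  inv_mem' := by
    intro σ hσ x
    have h1 := hσ (σ⁻¹ x)
    have h2 : σ (σ⁻¹ x) = x := AlgEquiv.apply_symm_apply σ x
    rw [h2] at h1
    exact h1.symm

theorem nonunits_of_dec {V : ValuationSubring A} {σ : A ≃ₐ[k] A} (hσ : σ ∈ dec k V) {x : A}
    (hx : x ∈ V.nonunits) : σ x ∈ V.nonunits := by
  rw [ValuationSubring.mem_nonunits_iff_or] at hx ⊢
  rcases hx with rfl | hx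
  · left
    exact map_zero _
  · right
    rw [← map_inv₀]
    exact fun h => hx ((hσ _).1 h)

/-- The inertia group of a valuation ring. -/
def ine (V : ValuationSubring A) : Subgroup (A ≃ₐ[k] A) where
  carrier := {σ | σ ∈ dec k V ∧ ∀ x ∈ V, σ x - x ∈ V.nonunits}
  mul_mem' := by
    rintro σ τ ⟨hσ, hσ'⟩ ⟨hτ, hτ'⟩
    refine ⟨mul_mem hσ hτ, fun x hx => ?_⟩
    have h1 : (σ * τ) x - x = σ (τ x - x) + (σ x - x) := by
      rw [map_sub]
      change σ (τ x) - x = _
      ring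
    rw [h1]
    exact add_mem (nonunits_of_dec k hσ (hτ' x hx)) (hσ' x hx)
  one_mem' := by
    refine ⟨one_mem _, fun x _ => ?_⟩
    have h1 : (1 : A ≃ₐ[k] A) x - x = 0 := sub_self x
    rw [h1]
    exact zero_mem _
  inv_mem' := by
    rintro σ ⟨hσ, hσ'⟩
    refine ⟨inv_mem hσ, fun x hx => ?_⟩
    have h2 : σ (σ⁻¹ x) = x := AlgEquiv.apply_symm_apply σ x
    have h3 : σ⁻¹ (σ x) = x := AlgEquiv.symm_apply_apply σ x
    have h1 : σ⁻¹ x - x = -(σ⁻¹ (σ x - x)) := by
      rw [map_sub, h3]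
      ring
    rw [h1]
    exact neg_mem (nonunits_of_dec k (inv_mem hσ) (hσ' x hx))

/-- The decomposition group of an embedding in the complex numbers. -/
def arc (φ : A →+* ℂ) : Subgroup (A ≃ₐ[k] A) where
  carrier := {σ | (∀ x, φ (σ x) = φ x) ∨ ∀ x, φ (σ x) = (starRingEnd ℂ) (φ x)}
  mul_mem' := by
    rintro σ τ (hσ | hσ) (hτ | hτ)
    · exact Or.inl fun x => (hσ (τ x)).trans (hτ x)
    · exact Or.inr fun x => (hσ (τ x)).trans (hτ x)
    · refine Or.inr fun x => (hσ (τ x)).trans ?_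
      rw [hτ]
    · refine Or.inl fun x => (hσ (τ x)).trans ?_
      rw [hτ, Complex.conj_conj]
  one_mem' := Or.inl fun x => rfl
  inv_mem' := by
    rintro σ (hσ | hσ)
    · refine Or.inl fun x => ?_
      have h1 := hσ (σ⁻¹ x)
      have h2 : σ (σ⁻¹ x) = x := AlgEquiv.apply_symm_apply σ x
      rw [h2] at h1
      exact h1.symm
    · refine Or.inr fun x => ?_
      have h1 := hσ (σ⁻¹ x)
      have h2 : σ (σ⁻¹ x) = x := AlgEquiv.apply_symm_apply σ x
      rw [h2] at h1
      rw [h1, Complex.conj_conj]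

/-- The conjugate of a valuation ring. -/
theorem conj_dec (V : ValuationSubring A) (g : A ≃ₐ[k] A) {σ : A ≃ₐ[k] A} (hσ : σ ∈ dec k V) :
    g⁻¹ * σ * g ∈ dec k (V.comap (g : A →+* A)) := by
  intro x
  have h2 : g ((g⁻¹ * σ * g) x) = σ (g x) := AlgEquiv.apply_symm_apply g _
  change g ((g⁻¹ * σ * g) x) ∈ V ↔ g x ∈ V
  rw [h2]
  exact hσ (g x)

theorem mem_nonunits_comap (V : ValuationSubring A) (g : A ≃ₐ[k] A) (x : A) :
    x ∈ (V.comap (g : A →+* A)).nonunits ↔ g x ∈ V.nonunits := by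
  rw [ValuationSubring.mem_nonunits_iff_or, ValuationSubring.mem_nonunits_iff_or]
  change _ ∨ ¬ g x⁻¹ ∈ V ↔ _
  rw [map_inv₀, EmbeddingLike.map_eq_zero_iff]

theorem conj_ine (V : ValuationSubring A) (g : A ≃ₐ[k] A) {σ : A ≃ₐ[k] A} (hσ : σ ∈ ine k V) :
    g⁻¹ * σ * g ∈ ine k (V.comap (g : A →+* A)) := by
  refine ⟨conj_dec k V g hσ.1, fun x hx => ?_⟩
  rw [mem_nonunits_comap, map_sub]
  have h2 : g ((g⁻¹ * σ * g) x) = σ (g x) := AlgEquiv.apply_symm_apply g _
  rw [h2]
  exact hσ.2 (g x) hx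

theorem conj_arc (φ : A →+* ℂ) (g : A ≃ₐ[k] A) {σ : A ≃ₐ[k] A} (hσ : σ ∈ arc k φ) :
    g⁻¹ * σ * g ∈ arc k (φ.comp (g : A →+* A)) := by
  have h2 : ∀ x, g ((g⁻¹ * σ * g) x) = σ (g x) := fun x => AlgEquiv.apply_symm_apply g _
  rcases hσ with h | h
  · refine Or.inl fun x => ?_
    change φ (g ((g⁻¹ * σ * g) x)) = φ (g x)
    rw [h2, h]
  · refine Or.inr fun x => ?_
    change φ (g ((g⁻¹ * σ * g) x)) = (starRingEnd ℂ) (φ (g x))
    rw [h2, h]

/-- The valuation ring lies over a member of the set `S` of valuation rings of `k`. -/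
def Over (S : Set (ValuationSubring k)) (V : ValuationSubring A) : Prop :=
  V.comap (algebraMap k A) ∈ S

theorem over_conj {S : Set (ValuationSubring k)} {V : ValuationSubring A} (g : A ≃ₐ[k] A) :
    Over k S (V.comap (g : A →+* A)) ↔ Over k S V := by
  unfold Over
  have h1 : (V.comap (g : A →+* A)).comap (algebraMap k A) = V.comap (algebraMap k A) := by
    ext x
    change g (algebraMap k A x) ∈ V ↔ algebraMap k A x ∈ V
    rw [g.commutes]
  rw [h1]

/-- The decomposition groups over `S` and infinity and the inertia groups outside `S`. -/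
def famS (A : Type*) [Field A] [Algebra k A] (S : Set (ValuationSubring k)) :
    Set (Subgroup (A ≃ₐ[k] A)) :=
  {D | (∃ V, Over k S V ∧ D = dec k V) ∨ (∃ V, ¬ Over k S V ∧ D = ine k V) ∨
    ∃ φ : A →+* ℂ, D = arc k φ}

theorem famS_conj (S : Set (ValuationSubring k)) : ∀ D ∈ famS k A S, ∀ g : A ≃ₐ[k] A,
    ∃ D' ∈ famS k A S, ∀ σ ∈ D, g⁻¹ * σ * g ∈ D' := by
  rintro D (⟨V, hV, rfl⟩ | ⟨V, hV, rfl⟩ | ⟨φ, rfl⟩) g
  · exact ⟨_, Or.inl ⟨V.comap (g : A →+* A), (over_conj k g).2 hV, rfl⟩, fun σ hσ =>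
      conj_dec k V g hσ⟩
  · exact ⟨_, Or.inr (Or.inl ⟨V.comap (g : A →+* A), fun h => hV ((over_conj k g).1 h), rfl⟩),
      fun σ hσ => conj_ine k V g hσ⟩
  · exact ⟨_, Or.inr (Or.inr ⟨φ.comp (g : A →+* A), rfl⟩), fun σ hσ => conj_arc k φ g hσ⟩

end groups

/-- The rank of the quotient of the submodule `Z` by its elements in `B`. -/
noncomputable def rkQuo {R V : Type*} [CommRing R] [AddCommGroup V] [Module R V]
    (Z B : Submodule R V) : Cardinal := Module.rank R (Z ⧸ B.comap Z.subtype)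

end Pool.Agent.U10.Shr
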