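import Pool.Agent.U10.Shr.Fld

/-!
The local conditions for a linear representation of a Galois group: continuous cocycles which are
coboundaries at a family of field extensions.
-/

set_option linter.unusedSectionVars false
set_option linter.style.haveILetI false

namespace Pool.Agent.U10.Shr

open Module

section top

variable {R : Type*} [CommRing R] {G M : Type*} [Group G] [TopologicalSpace G]
  [IsTopologicalGroup G] [AddCommGroup M] [Module R M] [TopologicalSpace M]
  [IsTopologicalAddGroup M] {a : G →* Module.End R M}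

theorem ct_rs {N H : Subgroup G} (h : N ≤ H) {f : H → M} (hf : Continuous f) :
    Continuous (rs h f) :=
  hf.comp (Continuous.subtype_mk continuous_subtype_val _)

theorem ct_cj (ha : ∀ g, Continuous (a g)) (N : Subgroup G) [hN : N.Normal] (g : G) {f : N → M}
    (hf : Continuous f) : Continuous (cj a N g f) := by
  have h1 : Continuous (fun n : N => (⟨g⁻¹ * n * g, by simpa using hN.conj_mem n n.2 g⁻¹⟩ : N)) :=
    Continuous.subtype_mk ((continuous_const.mul continuous_subtype_val).mul continuous_const) _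
  exact (ha g).comp (hf.comp h1)

/-- Continuity of a cocycle follows from that of its restriction to an open subgroup. -/
theorem ct_idx (ha : ∀ g, Continuous (a g)) {N H : Subgroup G} (h : N ≤ H)
    (hop : IsOpen (N : Set G)) {f : H → M} (hf : IsCoc a H f) (hl : Continuous (rs h f)) :
    Continuous f := by
  rw [continuous_iff_continuousAt]
  intro x
  -- near `x` the function is `f x + a x (f (x⁻¹ y))`
  let U : Set H := {y : H | ((x : G)⁻¹ * y) ∈ N}
  have hU : IsOpen U := hop.preimage (continuous_const.mul continuous_subtype_val)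
  have hxU : x ∈ U := by
    change (x : G)⁻¹ * x ∈ N
    rw [inv_mul_cancel]
    exact N.one_mem
  have h1 : ContinuousOn f U := by
    rw [continuousOn_iff_continuous_restrict]
    have h2 : U.domRestrict f = fun y : U => f x + a x (rs h f ⟨(x : G)⁻¹ * y, y.2⟩) := by
      funext y
      change f y = _
      have h3 : (y : H) = x * Subgroup.inclusion h ⟨(x : G)⁻¹ * y, y.2⟩ := by
        apply Subtype.ext
        change ((y : H) : G) = x * ((x : G)⁻¹ * y)
        rw [mul_inv_cancel_left]
      conv_lhs => rw [h3]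
      rw [hf]
      rfl
    rw [h2]
    refine continuous_const.add ((ha x).comp (hl.comp ?_))
    exact Continuous.subtype_mk (continuous_const.mul
      (continuous_subtype_val.comp continuous_subtype_val)) _
  exact h1.continuousAt (hU.mem_nhds hxU)

end top

section gal

variable {k A : Type*} [Field k] [Field A] [Algebra k A]
variable {kv B : Type*} [Field kv] [Algebra k kv] [Field B] [Algebra kv B] [Algebra k B]
  [IsScalarTower k kv B]
variable {R : Type*} [CommRing R] {M : Type*} [AddCommGroup M] [Module R M]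

variable (kv) in
/-- The function `f` on the subgroup `H` becomes a coboundary over `kv` at the embedding `ι`: there
is an element `m` with `f σ = σ m - m` for all `σ ∈ H` which are induced by automorphisms `τ` over
`kv`, that is `τ ι = ι σ`. -/
def LocAt (a : (A ≃ₐ[k] A) →* Module.End R M) (H : Subgroup (A ≃ₐ[k] A)) (ι : A →ₐ[k] B)
    (f : H → M) : Prop :=
  ∃ m : M, ∀ (τ : B ≃ₐ[kv] B) (σ : H), (∀ x, τ (ι x) = ι (σ.1 x)) → f σ = a σ m - m

variable {a : (A ≃ₐ[k] A) →* Module.End R M} {H N : Subgroup (A ≃ₐ[k] A)} {ι : A →ₐ[k] B}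

theorem locAt_zero : LocAt kv a H ι 0 :=
  ⟨0, fun τ σ _ => by rw [Pi.zero_apply, map_zero, sub_zero]⟩

theorem locAt_add {f g : H → M} (hf : LocAt kv a H ι f)
    (hg : LocAt kv a H ι g) : LocAt kv a H ι (f + g) := by
  obtain ⟨P, hP⟩ := hf
  obtain ⟨Q, hQ⟩ := hg
  refine ⟨P + Q, fun τ σ h => ?_⟩
  rw [Pi.add_apply, hP τ σ h, hQ τ σ h, map_add]
  abel

theorem locAt_smul {f : H → M} (c : R) (hf : LocAt kv a H ι f) :
    LocAt kv a H ι (c • f) := by
  obtain ⟨P, hP⟩ := hf
  refine ⟨c • P, fun τ σ h => ?_⟩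
  rw [Pi.smul_apply, hP τ σ h, map_smul, smul_sub]

theorem locAt_res (h : N ≤ H) {f : H → M}
    (hf : LocAt kv a H ι f) : LocAt kv a N ι (rs h f) := by
  obtain ⟨P, hP⟩ := hf
  exact ⟨P, fun τ σ hh => hP τ (Subgroup.inclusion h σ) hh⟩

theorem locAt_conj [hN : N.Normal] (g : A ≃ₐ[k] A) {f : N → M}
    (hf : LocAt kv a N (ι.comp g.toAlgHom) f) : LocAt kv a N ι (cj a N g f) := by
  obtain ⟨P, hP⟩ := hf
  refine ⟨a g P, fun τ σ hh => ?_⟩
  have h1 := hP τ ⟨g⁻¹ * σ * g, by simpa using hN.conj_mem σ σ.2 g⁻¹⟩ (by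
    intro x
    have h2 := hh (g x)
    change τ (ι (g x)) = ι (g (g⁻¹ (σ.1 (g x))))
    rw [h2]
    congr 1
    exact (AlgEquiv.apply_symm_apply g _).symm)
  change a g (f _) = _
  rw [h1, map_sub]
  congr 1
  exact a_eq a (by simp [mul_assoc]) _

/-- The pairs of compatible automorphisms. -/
def DD (kv : Type*) [Field kv] [Algebra k kv] [Algebra kv B] [IsScalarTower k kv B]
    (H : Subgroup (A ≃ₐ[k] A)) (ι : A →ₐ[k] B) : Subgroup ((B ≃ₐ[kv] B) × H) where
  carrier := {x | ∀ z, x.1 (ι z) = ι (x.2.1 z)}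
  mul_mem' := by
    intro x y hx hy z
    change x.1 (y.1 (ι z)) = ι (x.2.1 (y.2.1 z))
    rw [hy z, hx]
  one_mem' := by
    intro z
    rfl
  inv_mem' := by
    intro x hx z
    have h1 := hx (x.2.1⁻¹ z)
    change x.1⁻¹ (ι z) = ι (x.2.1⁻¹ z)
    have h2 : x.2.1 (x.2.1⁻¹ z) = z := AlgEquiv.apply_symm_apply x.2.1 z
    rw [h2] at h1
    rw [← h1]
    exact AlgEquiv.symm_apply_apply x.1 _

theorem locAt_idx (h : N ≤ H) [hN : N.Normal] [hfi : N.FiniteIndex]
    {f : H → M} (hf : IsCoc a H f)
    (hl : LocAt kv a N ι (rs h f)) : LocAt kv a H ι ((N.subgroupOf H).index • f) := by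
  classical
  obtain ⟨P, hP⟩ := hl
  let π : DD kv H ι →* H := (MonoidHom.snd _ _).comp (DD kv H ι).subtype
  let aB : DD kv H ι →* Module.End R M := (a.comp H.subtype).comp π
  let C : Subgroup (DD kv H ι) := (N.subgroupOf H).comap π
  have hdvd : C.index ∣ (N.subgroupOf H).index := by
    have h1 : C.index = (N.subgroupOf H).relIndex π.range := Subgroup.index_comap _ _
    rw [h1]
    exact Subgroup.relIndex_dvd_index_of_normal _ _
  haveI : C.FiniteIndex := ⟨fun h0 => by
    rw [h0, zero_dvd_iff] at hdvd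
    exact index_pos hdvd⟩
  obtain ⟨c, hc⟩ := hdvd
  obtain ⟨S, hS⟩ := killed aB C (fun x => f (π x) - (aB x P - P)) (by
      intro x y
      change f (π (x * y)) - (aB (x * y) P - P) =
        f (π x) - (aB x P - P) + aB x (f (π y) - (aB y P - P))
      rw [map_mul π, hf, map_mul aB, map_sub, map_sub]
      change f (π x) + aB x (f (π y)) - (aB x (aB y P) - P) = _
      abel) (by
      intro x hx
      change f (π x) - (aB x P - P) = 0
      rw [sub_eq_zero]
      exact hP x.1.1 ⟨_, hx⟩ x.2)
  refine ⟨(N.subgroupOf H).index • P - c • S, fun τ σ hh => ?_⟩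
  have h1 := hS ⟨(τ, σ), hh⟩
  have h2 : C.index • (f σ - (a σ P - P)) = S - a σ S := h1
  have h3 : (N.subgroupOf H).index • (f σ - (a σ P - P)) = c • (S - a σ S) := by
    rw [← h2, ← mul_smul, hc, mul_comm]
  rw [Pi.smul_apply, map_sub, map_nsmul, map_nsmul]
  rw [smul_sub, smul_sub, smul_sub, sub_eq_iff_eq_add] at h3
  rw [h3]
  abel

end gal

end Pool.Agent.U10.Shr
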